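import Pool.Agent.QG.Main

set_option autoImplicit false

namespace Pool.Agent.Results.MP_bad20c_gt.NotRigid

open Pool.Agent.BL Pool.Agent.QG

/-- For every `δ > 0` there are a compact connected Riemannian 3-manifold `M = G \ X` with nonempty
totally geodesic boundary, with sectional curvature `K < 0` and `|K + 1| ≤ δ`, and a quasi-isometry
`f` of its universal covering `X` (with the induced path metric) which is at unbounded distance
from every distance preserving map of `X`, in particular from every isometry. -/
theorem result (δ : ℝ) (hδ : 0 < δ) :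
    ∃ (Y X : Set V3) (g : V3 → V3 → V3 → ℝ) (Ch : V3 → V3 → V3 → V3)
      (G : Subgroup (Equiv.Perm X)), IsBdryModel Y X g Ch G ∧
      (∀ z ∈ X, ∀ u v, LinearIndependent ℝ ![u, v] → |sec g Ch z u v + 1| ≤ δ) ∧
      ∃ f : X → X, IsQI (fun x y : X => pdist X g x y) f ∧
        ∀ k : X → X, (∀ x y, pdist X g (k x) (k y) = pdist X g x y) →
          ∀ C : ℝ, ∃ x, C < pdist X g (f x) (k x) :=
  Pool.Agent.QG.main δ hδ

end Pool.Agent.Results.MP_bad20c_gt.NotRigid
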